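import Pool.Agent.R246.SK.Defs

open scoped ContDiff ComplexConjugate
open Filter MeasureTheory

namespace Pool.Agent.R608.SK

open Pool.Agent.R246.SK

theorem summable_int : Summable fun n : ℤ => 1 / (1 + (n : ℝ) ^ 2) := by
  have h1 : Summable fun n : ℤ => 1 / (n : ℝ) ^ 2 :=
    Real.summable_one_div_int_pow.2 (by norm_num)
  have h2 : Summable fun n : ℤ => if n = 0 then (1 : ℝ) else 0 :=
    summable_of_ne_finset_zero (s := {0}) (fun b hb => if_neg (by simpa using hb))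
  refine Summable.of_nonneg_of_le (fun n => by positivity) (fun n => ?_) (h1.add h2)
  by_cases hn : n = 0
  · subst hn
    simp
  · rw [if_neg hn, add_zero]
    have : (0 : ℝ) < (n : ℝ) ^ 2 := by positivity
    apply one_div_le_one_div_of_le this
    linarith

theorem s_abs : S_ABS := by
  intro U V C K G T B h1 h2 h3 h4 h5 h6 h7
  have hB : 0 ≤ B := (tsum_nonneg fun j => by positivity).trans (h4 0).2
  have hUC : ∀ n k, Summable (fun j => ‖U j k‖ * ‖C j n‖) ∧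
      ∑' j, ‖U j k‖ * ‖C j n‖ ≤ (B + 1) / 2 := by
    intro n k
    have hs : Summable fun j => (‖U j k‖ ^ 2 + ‖C j n‖ ^ 2) / 2 :=
      ((h4 k).1.add (h3 n).summable).div_const 2
    have hle : ∀ j, ‖U j k‖ * ‖C j n‖ ≤ (‖U j k‖ ^ 2 + ‖C j n‖ ^ 2) / 2 := fun j => by
      nlinarith [sq_nonneg (‖U j k‖ - ‖C j n‖)]
    have hs1 : Summable (fun j => ‖U j k‖ * ‖C j n‖) :=
      Summable.of_nonneg_of_le (fun j => by positivity) hle hs
    refine ⟨hs1, (hs1.tsum_le_tsum hle hs).trans ?_⟩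
    rw [tsum_div_const, (h4 k).1.tsum_add (h3 n).summable, (h3 n).tsum_eq]
    have := (h4 k).2
    linarith
  have hbig : Summable fun q : (ℤ × (ℤ × ℤ)) × ℕ =>
      ‖K q.1.2.1 q.1.2.2‖ * ‖V q.1.1 q.1.2.1‖ * (‖U q.2 q.1.2.2‖ * ‖C q.2 q.1.1‖) := by
    rw [summable_prod_of_nonneg (fun q => by positivity)]
    refine ⟨fun x => (hUC x.1 x.2.2).1.mul_left (‖K x.2.1 x.2.2‖ * ‖V x.1 x.2.1‖), ?_⟩
    refine Summable.of_nonneg_of_le (fun x => tsum_nonneg fun j => by positivity) (fun x => ?_)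
      ((summable_int.mul_of_nonneg h6 (fun n => by positivity)
        (fun p => by positivity)).mul_left (B * ((B + 1) / 2)))
    obtain ⟨n, m, k⟩ := x
    simp only
    rw [tsum_mul_left]
    have e1 := (hUC n k).2
    have e2 := h5 n m
    have e3 : (1 : ℝ) ≤ (1 + |(k : ℝ)|) ^ 2 := by nlinarith [abs_nonneg (k : ℝ)]
    have e4 : 0 ≤ ∑' j, ‖U j k‖ * ‖C j n‖ := tsum_nonneg fun j => by positivity
    calc ‖K m k‖ * ‖V n m‖ * ∑' j, ‖U j k‖ * ‖C j n‖
        ≤ ‖K m k‖ * (B * (1 + |(m : ℝ)|) ^ 2 / (1 + (n : ℝ) ^ 2)) * ((B + 1) / 2) := by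
          gcongr
      _ ≤ ‖K m k‖ * (B * (1 + |(m : ℝ)|) ^ 2 / (1 + (n : ℝ) ^ 2)) * ((B + 1) / 2) *
            (1 + |(k : ℝ)|) ^ 2 := le_mul_of_one_le_right (by positivity) e3
      _ = B * ((B + 1) / 2) * (1 / (1 + (n : ℝ) ^ 2) *
            (‖K m k‖ * (1 + |(m : ℝ)|) ^ 2 * (1 + |(k : ℝ)|) ^ 2)) := by ring
  let e : (ℕ × ℤ) × (ℤ × ℤ) ≃ (ℤ × (ℤ × ℤ)) × ℕ :=
    { toFun := fun p => ((p.1.2, p.2), p.1.1)
      invFun := fun q => ((q.2, q.1.1), q.1.2)
      left_inv := fun _ => rfl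
      right_inv := fun _ => rfl }
  let F : (ℕ × ℤ) × (ℤ × ℤ) → ℂ := fun p =>
    K p.2.1 p.2.2 * U p.1.1 p.2.2 * conj (V p.1.2 p.2.1) * conj (C p.1.1 p.1.2)
  have hFn : Summable fun p => ‖F p‖ := by
    have := e.summable_iff.2 hbig
    refine this.congr fun p => ?_
    simp only [F, e, Function.comp, Equiv.coe_fn_mk, norm_mul, RCLike.norm_conj]
    ring
  have hF : Summable F := hFn.of_norm
  have hT : ∀ p : ℕ × ℤ, HasSum (fun q : ℤ × ℤ => F (p, q)) (T p.1 p.2 * conj (C p.1 p.2)) :=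
    fun p => (h7 p.1 p.2).mul_right _
  constructor
  · refine Summable.of_nonneg_of_le (fun p => by positivity) (fun p => ?_) hFn.prod
    have h := (hT p).tsum_eq
    have h8 := norm_tsum_le_tsum_norm (hFn.prod_factor p)
    rw [h, norm_mul, RCLike.norm_conj] at h8
    exact h8
  · have hL : ∑' p, F p = ∑' p : ℕ × ℤ, T p.1 p.2 * conj (C p.1 p.2) := by
      rw [hF.tsum_prod]
      exact tsum_congr fun p => (hT p).tsum_eq
    let e2 : (ℤ × ℤ) × (ℤ × ℕ) ≃ (ℕ × ℤ) × (ℤ × ℤ) :=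
      { toFun := fun p => ((p.2.2, p.2.1), p.1)
        invFun := fun q => (q.2, (q.1.2, q.1.1))
        left_inv := fun _ => rfl
        right_inv := fun _ => rfl }
    have hF2 : Summable (F ∘ e2) := e2.summable_iff.2 hF
    rw [← hL, ← e2.tsum_eq F, (show Summable fun c => F (e2 c) from hF2).tsum_prod]
    refine tsum_congr fun p => ?_
    have hs : Summable fun q : ℤ × ℕ => F (e2 (p, q)) := hF2.prod_factor p
    rw [hs.tsum_prod]
    have h9 : ∀ n : ℤ, ∑' j : ℕ, F (e2 (p, (n, j))) =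
        K p.1 p.2 * (V n p.2 * conj (V n p.1)) := by
      intro n
      have h10 := ((h1 n p.2).mul_left (K p.1 p.2 * conj (V n p.1))).tsum_eq
      rw [show K p.1 p.2 * (V n p.2 * conj (V n p.1)) = K p.1 p.2 * conj (V n p.1) * V n p.2 by
        ring, ← h10]
      refine tsum_congr fun j => ?_
      simp only [F, e2, Equiv.coe_fn_mk]
      ring
    rw [tsum_congr h9]
    exact ((h2 p.2 p.1).mul_left _).tsum_eq

end Pool.Agent.R608.SK
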